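import Pool.Agent.helper41.CL.Spec

/-!
# SP: the covers with and without a vertex
-/

set_option autoImplicit false

namespace Pool.Agent.helper41.CL

open Finset

theorem SP_mem {α : Type} [DecidableEq α] (V : Finset α) (E : Finset (Finset α)) (c : ℕ)
    (C : Finset α) : C ∈ cov V E c ↔ C ⊆ V ∧ #C = c ∧ ∀ e ∈ E, ∃ x ∈ e, x ∈ C := by
  unfold cov
  rw [mem_filter, mem_powersetCard, and_assoc]

theorem SP : SP_stmt := by
  intro α _ V E p c hp
  have h1 : #((cov V E (c + 1)).filter fun C => p ∈ C) =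
      #(cov (V.erase p) (E.filter fun e => p ∉ e) c) := by
    refine Finset.card_nbij' (fun C => C.erase p) (fun C => insert p C) ?_ ?_ ?_ ?_
    · intro C hC
      rw [mem_coe, mem_filter, SP_mem] at hC
      obtain ⟨⟨hV, hc, hE⟩, hpC⟩ := hC
      rw [mem_coe, SP_mem]
      refine ⟨erase_subset_erase p hV, ?_, ?_⟩
      · show #(C.erase p) = c
        rw [card_erase_of_mem hpC, hc]
        omega
      · intro e he
        rw [mem_filter] at he
        obtain ⟨x, hx, hxC⟩ := hE e he.1
        refine ⟨x, hx, mem_erase.2 ⟨?_, hxC⟩⟩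
        intro hxp
        exact he.2 (hxp ▸ hx)
    · intro C hC
      rw [mem_coe, SP_mem] at hC
      obtain ⟨hV, hc, hE⟩ := hC
      have hpC : p ∉ C := fun h => (mem_erase.1 (hV h)).1 rfl
      rw [mem_coe, mem_filter, SP_mem]
      refine ⟨⟨?_, ?_, ?_⟩, mem_insert_self p C⟩
      · exact insert_subset hp (hV.trans (erase_subset p V))
      · show #(insert p C) = c + 1
        rw [card_insert_of_notMem hpC, hc]
      · intro e he
        by_cases hpe : p ∈ e
        · exact ⟨p, hpe, mem_insert_self p C⟩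
        · obtain ⟨x, hx, hxC⟩ := hE e (mem_filter.2 ⟨he, hpe⟩)
          exact ⟨x, hx, mem_insert_of_mem hxC⟩
    · intro C hC
      rw [mem_coe, mem_filter] at hC
      exact insert_erase hC.2
    · intro C hC
      rw [mem_coe, SP_mem] at hC
      have hpC : p ∉ C := fun h => (mem_erase.1 (hC.1 h)).1 rfl
      exact erase_insert hpC
  have h2 : (cov V E (c + 1)).filter (fun C => ¬ p ∈ C) = cov (V.erase p) E (c + 1) := by
    ext C
    rw [mem_filter, SP_mem, SP_mem]
    constructor
    · rintro ⟨⟨hV, hc, hE⟩, hpC⟩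
      refine ⟨?_, hc, hE⟩
      intro x hx
      refine mem_erase.2 ⟨?_, hV hx⟩
      intro hxp
      exact hpC (hxp ▸ hx)
    · rintro ⟨hV, hc, hE⟩
      exact ⟨⟨hV.trans (erase_subset p V), hc, hE⟩, fun h => (mem_erase.1 (hV h)).1 rfl⟩
  rw [← h1, ← h2]
  exact (Finset.card_filter_add_card_filter_not _).symm

end Pool.Agent.helper41.CL
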