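import Pool.Agent.helper47.CL.SpecD

/-!
# RC: the induction step for `SC`
-/

set_option autoImplicit false

namespace Pool.Agent.helper41.CL

open Finset

theorem RC_L (h4 : ZL_stmt) (N : ℕ) (hB : SB N) (hC : SC N) (α : Type) [DecidableEq α]
    (V : Finset α) (E : Finset (Finset α)) (q r : ℕ) (hG : Gr V E) (hV : #V = 2 * q + r)
    (hN : #V ≤ N + 1) (hq : 1 ≤ q) (hr : 1 ≤ r) (hrq : r ≤ q + 2) (hE : #E + 3 ≤ q + 2 * r)
    (x a : α) (hL : Lf E x a) : 8 * 3 ^ r * 2 ^ q ≤ 9 * 2 ^ r * #(ind V E (q + 1)) := by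
  obtain ⟨q, rfl⟩ := Nat.exists_eq_add_of_le' hq
  obtain ⟨r, rfl⟩ := Nat.exists_eq_add_of_le' hr
  obtain ⟨g1, g2, c1, c2, e1, e2, hk⟩ := h4 α V E x a hG hL
  have s1 := hC α _ _ q (r + 1) g1 (by omega) (by omega) (by omega) (by omega)
  have s2 := hB α _ _ (q + 1) r g2 (by omega) (by omega) (by omega) (by omega)
  have s3 := Nat.mul_le_mul_left (2 ^ r) (hk (q + 1))
  simp only [pow_succ] at s1 s2 s3 ⊢
  linarith

theorem RC_K (h3 : ZK_stmt) (N : ℕ) (hC : SC N) (α : Type) [DecidableEq α]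
    (V : Finset α) (E : Finset (Finset α)) (q r : ℕ) (hG : Gr V E) (hV : #V = 2 * q + r)
    (hN : #V ≤ N + 1) (hq : 1 ≤ q) (hrq : r ≤ q + 2) (hE : #E + 3 ≤ q + 2 * r)
    (x y : α) (hK : Kt E x y) : 8 * 3 ^ r * 2 ^ q ≤ 9 * 2 ^ r * #(ind V E (q + 1)) := by
  obtain ⟨q, rfl⟩ := Nat.exists_eq_add_of_le' hq
  obtain ⟨g1, c1, e1, hk⟩ := h3 α V E x y hG hK
  have s1 := hC α _ _ q r g1 (by omega) (by omega) (by omega) (by omega)
  have s3 := Nat.mul_le_mul_left (2 ^ r) (hk (q + 1))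
  have s4 : 0 ≤ 2 ^ r * #(ind (V \ {x, y}) (av E {x, y}) (q + 1 + 1)) := Nat.zero_le _
  simp only [pow_succ] at s1 s3 ⊢
  rw [Nat.mul_add] at s3
  linarith

theorem RC_D (h5 : ZW_stmt) (N : ℕ) (hC : SC N) (α : Type) [DecidableEq α]
    (V : Finset α) (E : Finset (Finset α)) (q r : ℕ) (hG : Gr V E) (hV : #V = 2 * q + r)
    (hN : #V ≤ N + 1) (hq : 1 ≤ q) (hr : 1 ≤ r) (hrq : r ≤ q + 2) (hE : #E + 3 ≤ q + 2 * r)
    (p a b : α) (hT : Tw E p a b) (ha : 2 ≤ #(inc E a)) :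
    8 * 3 ^ r * 2 ^ q ≤ 9 * 2 ^ r * #(ind V E (q + 1)) := by
  obtain ⟨q, rfl⟩ := Nat.exists_eq_add_of_le' hq
  obtain ⟨r, rfl⟩ := Nat.exists_eq_add_of_le' hr
  obtain ⟨g1, g2, c1, c2, e2, e1, _, hk⟩ := h5 α V E p a b hG hT
  have e1' := e1 (Or.inl ha)
  have s1 := hC α _ _ q r g1 (by omega) (by omega) (by omega) (by omega)
  have s2 := hC α _ _ (q + 1) r g2 (by omega) (by omega) (by omega) (by omega)
  have s3 := Nat.mul_le_mul_left (2 ^ r) (hk (q + 1))
  simp only [pow_succ] at s1 s2 s3 ⊢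
  linarith

theorem RC_one (V : Type) [DecidableEq V] (W : Finset V) (E : Finset (Finset V)) (hG : Gr W E) :
    #(ind W E 1) = #W := by
  unfold ind
  rw [filter_true_of_mem, card_powersetCard, Nat.choose_one_right]
  intro I hI e he hsub
  have h1 := card_le_card hsub
  rw [(mem_powersetCard.1 hI).2, (hG e he).2] at h1
  omega

theorem RC_empty (V : Type) [DecidableEq V] (W : Finset V) (k : ℕ) :
    #(ind W ∅ k) = (#W).choose k := by
  unfold ind
  rw [filter_true_of_mem, card_powersetCard]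
  intro I _ e he
  exact absurd he (notMem_empty e)

theorem RC_deg (V : Type) [DecidableEq V] (W : Finset V) (E : Finset (Finset V)) (hG : Gr W E)
    (hd : ∀ x, #(inc E x) ≤ 1) (hne : E.Nonempty) : ∃ x y, Kt E x y := by
  obtain ⟨e, he⟩ := hne
  obtain ⟨x, y, hxy, rfl⟩ := card_eq_two.1 (hG e he).2
  have key : ∀ z, z ∈ ({x, y} : Finset V) → ∀ e' ∈ E, z ∈ e' → e' = {x, y} := by
    intro z hz e' he' hze
    exact card_le_one.1 (hd z) e' (mem_filter.2 ⟨he', hze⟩) _ (mem_filter.2 ⟨he, hz⟩)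
  refine ⟨x, y, hxy, he, ?_⟩
  rintro e' he' (h | h)
  · exact key x (mem_insert_self x _) e' he' h
  · exact key y (mem_insert_of_mem (mem_singleton_self y)) e' he' h

theorem RC (h1 : MC_stmt) (h2 : ZR_stmt) (h3 : ZK_stmt) (h4 : ZL_stmt) (h5 : ZW_stmt)
    (h6 : ZI_stmt) (h7 : ZE_stmt) (h8 : ZS_stmt) (h9 : SD_stmt) : RC_stmt := by
  intro N hB hC α _ V E q r hG hV hN hrq hE
  rcases Nat.eq_zero_or_pos r with rfl | hr
  · have h := (h2 α V E q hG (by omega)).1 (by omega)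
    simpa using h
  rcases Nat.eq_or_lt_of_le hrq with rfl | hrq'
  · have h := h1 α V E (q + 1) hG (by omega) (by omega)
    have h' := Nat.mul_le_mul_left (2 ^ q) h
    simp only [pow_succ] at h' ⊢
    linarith
  have hrq2 : r ≤ q + 2 := by omega
  rcases Nat.eq_zero_or_pos q with rfl | hq
  · have hr2 : r = 2 := by omega
    subst hr2
    rw [zero_add, RC_one α V E hG, hV]
    norm_num
  rcases h8 α V E hG with ⟨x, a, hL⟩ | ⟨⟨y, hy, hyE⟩, a, ha⟩ | ⟨p, a, b, hT, ha, _⟩ | hd | hF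
  · exact RC_L h4 N hB hC α V E q r hG hV hN hq hr hrq2 hE x a hL
  · by_cases hL : ∃ x b, Lf E x b
    · obtain ⟨x, b, hL⟩ := hL
      exact RC_L h4 N hB hC α V E q r hG hV hN hq hr hrq2 hE x b hL
    · obtain ⟨E', hG', hc', ⟨x, b, hL'⟩, hle⟩ := h6 α V E a y hG hy hyE ha hL
      have h := RC_L h4 N hB hC α V E' q r hG' hV hN hq hr hrq2 (by omega) x b hL'
      exact h.trans (Nat.mul_le_mul_left _ (hle _))
  · exact RC_D h5 N hC α V E q r hG hV hN hq hr hrq2 hE p a b hT ha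
  · rcases E.eq_empty_or_nonempty with rfl | hne
    · by_cases h4' : 4 ≤ q + 2 * r
      · obtain ⟨V', hV', hk⟩ := h7 α V (by omega)
        obtain ⟨q, rfl⟩ := Nat.exists_eq_add_of_le' (show 1 ≤ q from hq)
        have hG0 : Gr V' (∅ : Finset (Finset α)) := fun e he => absurd he (notMem_empty e)
        have s1 := hC α V' ∅ q r hG0 (by omega) (by omega) (by omega) (by
          rw [card_empty]
          omega)
        have s3 := Nat.mul_le_mul_left (2 ^ r) (hk (q + 1))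
        simp only [pow_succ] at s1 s3 ⊢
        linarith
      · have hq1 : q = 1 := by omega
        have hr1 : r = 1 := by omega
        subst hq1
        subst hr1
        rw [RC_empty, hV]
        norm_num [Nat.choose]
    · obtain ⟨x, y, hK⟩ := RC_deg α V E hG hd hne
      exact RC_K h3 N hC α V E q r hG hV hN hq hrq2 hE x y hK
  · by_cases hK : ∃ x y, Kt E x y
    · obtain ⟨x, y, hK⟩ := hK
      exact RC_K h3 N hC α V E q r hG hV hN hq hrq2 hE x y hK
    · exfalso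
      have hs := h9 α V E hG
      have hb : ∑ x ∈ V, 3 ≤ ∑ x ∈ V, #(inc E x) := by
        refine sum_le_sum fun x hx => ?_
        rcases hF.2 x hx with h | ⟨y, h⟩
        · exact h
        · exact absurd ⟨x, y, h⟩ hK
      rw [sum_const, smul_eq_mul, hs] at hb
      omega

end Pool.Agent.helper41.CL
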