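import Pool.Agent.helper47.CL.SpecC

/-!
# YF: the case of single vertices, single edges and paths with three vertices
-/

set_option autoImplicit false

namespace Pool.Agent.helper41.CL

open Finset

theorem YF_inc {α : Type} [DecidableEq α] (E : Finset (Finset α)) (p q : α)
    (h : ∀ e ∈ E, q ∈ e → p ∉ e) : inc (E.filter fun e => p ∉ e) q = inc E q := by
  unfold inc
  ext e
  rw [mem_filter, mem_filter, mem_filter]
  constructor
  · rintro ⟨⟨h1, _⟩, h2⟩
    exact ⟨h1, h2⟩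
  · rintro ⟨h1, h2⟩
    exact ⟨⟨h1, h e h1 h2⟩, h2⟩

theorem YF_card {α : Type} [DecidableEq α] (E : Finset (Finset α)) (p : α) :
    #(E.filter fun e => p ∉ e) + #(inc E p) = #E := by
  unfold inc
  rw [add_comm]
  exact card_filter_add_card_filter_not _

theorem YF_nb {α : Type} [DecidableEq α] (V : Finset α) (E : Finset (Finset α)) (hG : Gr V E)
    (p : α) (h2 : #(inc E p) = 2) :
    ∃ a b : α, a ∈ V ∧ b ∈ V ∧ p ≠ a ∧ p ≠ b ∧ a ≠ b ∧ {p, a} ∈ E ∧ {p, b} ∈ E ∧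
      ∀ e ∈ E, p ∈ e → e = {p, a} ∨ e = {p, b} := by
  have key : ∀ e ∈ inc E p, ∃ a, a ∈ V ∧ p ≠ a ∧ e = {p, a} := by
    intro e he
    obtain ⟨he1, he2⟩ := mem_filter.1 he
    obtain ⟨hs, hc⟩ := hG e he1
    obtain ⟨a, ha⟩ := card_eq_one.1 (show #(e.erase p) = 1 by rw [card_erase_of_mem he2, hc])
    have hae : a ∈ e.erase p := by
      rw [ha]
      exact mem_singleton_self a
    refine ⟨a, hs (mem_of_mem_erase hae), (ne_of_mem_erase hae).symm, ?_⟩
    rw [← insert_erase he2, ha]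
  obtain ⟨e1, e2, hne, he⟩ := card_eq_two.1 h2
  have m1 : e1 ∈ inc E p := by
    rw [he]
    exact mem_insert_self _ _
  have m2 : e2 ∈ inc E p := by
    rw [he]
    exact mem_insert_of_mem (mem_singleton_self _)
  obtain ⟨a, haV, hpa, rfl⟩ := key e1 m1
  obtain ⟨b, hbV, hpb, rfl⟩ := key e2 m2
  refine ⟨a, b, haV, hbV, hpa, hpb, fun hab => hne (by rw [hab]), (mem_filter.1 m1).1,
    (mem_filter.1 m2).1, ?_⟩
  intro e he1 he2
  have : e ∈ inc E p := mem_filter.2 ⟨he1, he2⟩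
  rw [he, mem_insert, mem_singleton] at this
  exact this

theorem YF_gr {α : Type} [DecidableEq α] (V W : Finset α) (E F : Finset (Finset α)) (hG : Gr V E)
    (hF : F ⊆ E) (hW : ∀ e ∈ F, ∀ x ∈ e, x ∈ V → x ∈ W) : Gr W F :=
  fun e he => ⟨fun x hx => hW e he x hx ((hG e (hF he)).1 hx), (hG e (hF he)).2⟩

theorem YF (h1 : AZ_stmt) (h2 : SP_stmt) (h3 : WO_stmt) (h4 : EA_stmt) (h5 : SD_stmt) :
    YF_stmt := by
  intro α _ V E c hG hc hE hV hd hn
  have dis : ∀ p x, p ≠ x → #(inc E p) = 2 → #(inc E x) = 2 → ∀ e ∈ E, p ∈ e → x ∉ e := by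
    intro p x hpx hp hx e he hpe hxe
    have := hn e he p hpe x hxe hpx hp
    omega
  have hD : 4 ≤ #(V.filter fun x => #(inc E x) = 2) := by
    have hs := h5 α V E hG
    have hb : ∑ x ∈ V, #(inc E x) ≤ ∑ x ∈ V, (1 + if #(inc E x) = 2 then 1 else 0) := by
      refine sum_le_sum fun x _ => ?_
      have := hd x
      split_ifs <;> omega
    rw [sum_add_distrib, ← card_filter, sum_const, smul_eq_mul, mul_one] at hb
    omega
  obtain ⟨D, hDs, hDc⟩ := exists_subset_card_eq hD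
  obtain ⟨p4, hp4⟩ : D.Nonempty := card_pos.1 (by omega)
  obtain ⟨p1, p2, p3, h12, h13, h23, hDe⟩ :=
    card_eq_three.1 (show #(D.erase p4) = 3 by rw [card_erase_of_mem hp4, hDc])
  have m : ∀ x ∈ D, x ∈ V ∧ #(inc E x) = 2 := fun x hx => mem_filter.1 (hDs hx)
  have k1 : p1 ∈ D.erase p4 := by
    rw [hDe]
    simp
  have k2 : p2 ∈ D.erase p4 := by
    rw [hDe]
    simp
  have k3 : p3 ∈ D.erase p4 := by
    rw [hDe]
    simp
  obtain ⟨v1, d1⟩ := m p1 (mem_of_mem_erase k1)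
  obtain ⟨v2, d2⟩ := m p2 (mem_of_mem_erase k2)
  obtain ⟨v3, d3⟩ := m p3 (mem_of_mem_erase k3)
  obtain ⟨v4, d4⟩ := m p4 hp4
  have h14 := ne_of_mem_erase k1
  have h24 := ne_of_mem_erase k2
  have h34 := ne_of_mem_erase k3
  set E1 := E.filter fun e => p1 ∉ e with hE1
  set E2 := E1.filter fun e => p2 ∉ e with hE2
  set E3 := E2.filter fun e => p3 ∉ e with hE3
  have sub1 : E1 ⊆ E := filter_subset _ _
  have sub2 : E2 ⊆ E1 := filter_subset _ _
  have sub3 : E3 ⊆ E2 := filter_subset _ _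
  have i2 : inc E1 p2 = inc E p2 :=
    YF_inc E p1 p2 fun e he hp => dis p2 p1 h12.symm d2 d1 e he hp
  have i3 : inc E2 p3 = inc E p3 := by
    rw [hE2, YF_inc E1 p2 p3 fun e he hp => dis p3 p2 h23.symm d3 d2 e (sub1 he) hp]
    exact YF_inc E p1 p3 fun e he hp => dis p3 p1 h13.symm d3 d1 e he hp
  have i4 : inc E3 p4 = inc E p4 := by
    rw [hE3, YF_inc E2 p3 p4 fun e he hp =>
      dis p4 p3 h34.symm d4 d3 e (sub1 (sub2 he)) hp, hE2,
      YF_inc E1 p2 p4 fun e he hp => dis p4 p2 h24.symm d4 d2 e (sub1 he) hp]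
    exact YF_inc E p1 p4 fun e he hp => dis p4 p1 h14.symm d4 d1 e he hp
  have c1 : #E1 + 2 = #E := by
    rw [← d1]
    exact YF_card E p1
  have c2 : #E2 + 2 = #E1 := by
    rw [← d2, ← i2]
    exact YF_card E1 p2
  have c3 : #E3 + 2 = #E2 := by
    rw [← d3, ← i3]
    exact YF_card E2 p3
  have c4 : 2 ≤ #E3 := by
    rw [← d4, ← i4]
    exact card_le_card (filter_subset _ _)
  have hc6 : 6 ≤ c := by omega
  obtain ⟨k, rfl⟩ := Nat.exists_eq_add_of_le' hc6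
  obtain ⟨a, b, haV, hbV, hpa, hpb, hab, hae, hbe, honly⟩ := YF_nb V E hG p2 d2
  have a1 : a ≠ p1 := by
    rintro rfl
    exact dis p2 a h12.symm d2 d1 _ hae (by simp) (by simp)
  have b1 : b ≠ p1 := by
    rintro rfl
    exact dis p2 b h12.symm d2 d1 _ hbe (by simp) (by simp)
  have a3 : p3 ≠ a := by
    rintro rfl
    exact dis p2 p3 h23 d2 d3 _ hae (by simp) (by simp)
  have b3 : p3 ≠ b := by
    rintro rfl
    exact dis p2 p3 h23 d2 d3 _ hbe (by simp) (by simp)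
  -- the splitting
  have s1 := h2 α V E p1 (k + 5) v1
  have hp2V : p2 ∈ V.erase p1 := mem_erase.2 ⟨h12.symm, v2⟩
  have s2 := h2 α (V.erase p1) E1 p2 (k + 4) hp2V
  have g2 : Gr ((V.erase p1).erase p2) E2 := by
    refine YF_gr V _ E E2 hG (sub2.trans sub1) ?_
    intro e he x hx hxV
    have he2 := mem_filter.1 he
    have he1 := mem_filter.1 he2.1
    refine mem_erase.2 ⟨?_, mem_erase.2 ⟨?_, hxV⟩⟩
    · rintro rfl
      exact he2.2 hx
    · rintro rfl
      exact he1.2 hx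
  have cV1 : #(V.erase p1) = 2 * (k + 6) - 1 := by
    rw [card_erase_of_mem v1, hV]
  have cV2 : #((V.erase p1).erase p2) = 2 * (k + 6) - 2 := by
    rw [card_erase_of_mem hp2V, cV1]
    omega
  have hEA := h4 α ((V.erase p1).erase p2) E2 p3 g2 (by rw [i3, d3]) (by omega)
  have e2k : #E2 = k + 4 := by omega
  rw [e2k, cV2] at hEA
  have hWO := h3 α (V.erase p1) E1 p2 a b (k + 3) (mem_erase.2 ⟨a1, haV⟩) (mem_erase.2 ⟨b1, hbV⟩)
    hpa hpb hab (fun e he hp => honly e (sub1 he) hp)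
  have hp3V : p3 ∈ (V.erase p1) \ {p2, a, b} := by
    rw [mem_sdiff, mem_erase, mem_insert, mem_insert, mem_singleton]
    refine ⟨⟨h13.symm, v3⟩, ?_⟩
    rintro (h | h | h)
    · exact h23 h.symm
    · exact a3 h
    · exact b3 h
  have s3 := h2 α ((V.erase p1) \ {p2, a, b}) (E1.filter fun e => p2 ∉ e ∧ a ∉ e ∧ b ∉ e) p3
    (k + 2) hp3V
  have hsub : ((E1.filter fun e => p2 ∉ e ∧ a ∉ e ∧ b ∉ e).filter fun e => p3 ∉ e) ⊆ E3 := by
    intro e he
    obtain ⟨he1, he3⟩ := mem_filter.1 he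
    obtain ⟨he4, he5, _, _⟩ := mem_filter.1 he1
    exact mem_filter.2 ⟨mem_filter.2 ⟨he4, he5⟩, he3⟩
  have g3 : Gr (((V.erase p1) \ {p2, a, b}).erase p3)
      ((E1.filter fun e => p2 ∉ e ∧ a ∉ e ∧ b ∉ e).filter fun e => p3 ∉ e) := by
    refine YF_gr V _ E _ hG (hsub.trans (sub3.trans (sub2.trans sub1))) ?_
    intro e he x hx hxV
    obtain ⟨he1, he3⟩ := mem_filter.1 he
    obtain ⟨he4, he5, he6, he7⟩ := mem_filter.1 he1
    have he8 := (mem_filter.1 he4).2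
    rw [mem_erase, mem_sdiff, mem_erase, mem_insert, mem_insert, mem_singleton]
    refine ⟨?_, ⟨?_, hxV⟩, ?_⟩
    · rintro rfl
      exact he3 hx
    · rintro rfl
      exact he8 hx
    · rintro (rfl | rfl | rfl)
      · exact he5 hx
      · exact he6 hx
      · exact he7 hx
  have cV3 : 2 * (k + 2) ≤ #(((V.erase p1) \ {p2, a, b}).erase p3) := by
    rw [card_erase_of_mem hp3V]
    have t1 : #({p2, a, b} : Finset α) ≤ 3 := card_le_three
    have t2 : #(V.erase p1) - #({p2, a, b} : Finset α) ≤ #((V.erase p1) \ {p2, a, b}) :=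
      le_card_sdiff _ _
    omega
  have hAZ := h1 α _ _ (k + 2) g3 ((card_le_card hsub).trans (by omega)) cV3
  have x1 : 2 ^ (k + 4) = 16 * 2 ^ k := by ring
  have x2 : 2 ^ (k + 2) = 4 * 2 ^ k := by ring
  have x3 : 2 ^ (k + 6 - 1) = 32 * 2 ^ k := by
    rw [show k + 6 - 1 = k + 5 by omega]
    ring
  have x4 : 2 * (2 * (k + 6) - 2) - 3 * (k + 4) + 6 = k + 14 := by omega
  rw [x1, x4] at hEA
  rw [x2] at hAZ
  rw [x3]
  have x5 : 16 * 2 ^ k * 14 ≤ 16 * 2 ^ k * (k + 14) := Nat.mul_le_mul_left _ (by omega)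
  have e5 : k + 5 + 1 = k + 6 := rfl
  have e6 : k + 4 + 1 = k + 5 := rfl
  have e7 : k + 3 + 2 = k + 5 := rfl
  have e8 : k + 2 + 1 = k + 3 := rfl
  rw [e5] at s1
  rw [e6] at s2
  rw [e7] at hWO
  rw [e8] at s3
  rw [← hE1] at s1
  rw [← hE2] at s2
  omega

end Pool.Agent.helper41.CL
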